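import Pool.Agent.Helper55.PC.Base

/-!
# MP_cf7fa9_pr, block B1: a rise of height `R` with drawdown `< m`
-/

namespace Pool.Agent.Helper55.PC

open Finset
open scoped Classical

namespace B1

lemma sum_slot (f : Slot → ℝ) (z : ℝ) (h : ∀ a, a ≠ (0, true) → a ≠ (1, true) → f a = z) :
    ∑ a : Slot, f a = f (0, true) + f (1, true) + 12 * z := by
  have h1 : ∀ a : Slot, f a = z + ((if a = (0, true) then f (0, true) - z else 0) +
      (if a = (1, true) then f (1, true) - z else 0)) := by
    intro a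
    by_cases h0 : a = (0, true)
    · subst h0
      rw [if_pos rfl, if_neg (by decide)]; ring
    · by_cases h1 : a = (1, true)
      · subst h1
        rw [if_neg (by decide), if_pos rfl]; ring
      · rw [if_neg h0, if_neg h1, h a h0 h1]; ring
  rw [Finset.sum_congr rfl fun a _ => h1 a, Finset.sum_add_distrib, Finset.sum_add_distrib,
    Finset.sum_ite_eq' univ, Finset.sum_ite_eq' univ, Finset.sum_const, Finset.card_univ,
    card_slot]
  simp only [mem_univ, if_true, nsmul_eq_mul]
  push_cast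
  ring

/-- The machine: drawdown from the running maximum, height of the running maximum. -/
def st (m R : ℕ) (a : Slot) (e : ℕ × ℕ) : ℕ × ℕ :=
  if e.2 = R then e else
    if a = (0, true) then (if e.1 = 0 then (0, e.2 + 1) else (e.1 - 1, e.2))
    else if a = (1, true) then (if e.1 + 1 = m then (0, 0) else (e.1 + 1, e.2))
    else e

variable (m R : ℕ)

noncomputable def V (H : ℕ) : ℝ :=
  7 * m * (m + 1) * ((1 + 1 / (m : ℝ)) ^ R - (1 + 1 / (m : ℝ)) ^ H)

noncomputable def F (e : ℕ × ℕ) : ℝ :=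
  (1 - e.1 / m) * V m R e.2 + (e.1 / m) * V m R 0 + 7 * e.1 * (m - e.1)

variable {m R}

lemma V_nonneg {H : ℕ} (h : H ≤ R) : 0 ≤ V m R H := by
  unfold V
  have h1 : (1 + 1 / (m : ℝ)) ^ H ≤ (1 + 1 / (m : ℝ)) ^ R :=
    pow_le_pow_right₀ (by have : (0 : ℝ) ≤ 1 / m := by positivity
                          linarith) h
  have h2 : (0 : ℝ) ≤ 7 * m * (m + 1) := by positivity
  exact mul_nonneg h2 (by linarith)

lemma V_succ (hm : 1 ≤ m) (H : ℕ) :
    V m R (H + 1) = V m R H + V m R H / m - V m R 0 / m - 7 * (m + 1) := by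
  have hm' : (m : ℝ) ≠ 0 := by positivity
  unfold V
  rw [pow_succ, pow_zero]
  field_simp
  ring

lemma F_drop (hm : 1 ≤ m) (e : ℕ × ℕ) (he : e.1 < m ∧ e.2 ≤ R) (hA : ¬ e.2 = R) :
    (∑ a : Slot, F m R (st m R a e)) / 14 ≤ F m R e - 1 := by
  obtain ⟨D, H⟩ := e
  simp only at he hA
  have hm' : (m : ℝ) ≠ 0 := by positivity
  have hrest : ∀ a : Slot, a ≠ (0, true) → a ≠ (1, true) →
      F m R (st m R a (D, H)) = F m R (D, H) := by
    intro a h0 h1
    simp [st, hA, h0, h1]
  rw [sum_slot _ _ hrest]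
  have hdown : F m R (st m R (1, true) (D, H)) =
      (1 - (D + 1) / m) * V m R H + ((D + 1) / m) * V m R 0 + 7 * (D + 1) * (m - (D + 1)) := by
    by_cases h1 : D + 1 = m
    · have e1 : st m R (1, true) (D, H) = (0, 0) := by
        simp [st, hA, h1]
      rw [e1]
      have e2 : ((D : ℝ) + 1) = m := by exact_mod_cast h1
      rw [e2]
      simp only [F]
      field_simp
      push_cast
      ring
    · have e1 : st m R (1, true) (D, H) = (D + 1, H) := by
        simp [st, hA, h1]
      rw [e1]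
      simp only [F]
      push_cast
      ring
  rw [hdown]
  rcases Nat.eq_zero_or_pos D with h0 | h0
  · subst h0
    have e1 : st m R (0, true) (0, H) = (0, H + 1) := by
      simp [st, hA]
    rw [e1]
    simp only [F]
    rw [V_succ hm]
    apply le_of_eq
    field_simp
    push_cast
    ring
  · have e1 : st m R (0, true) (D, H) = (D - 1, H) := by
      have : D ≠ 0 := by omega
      simp [st, hA, this]
    rw [e1]
    have e2 : ((D - 1 : ℕ) : ℝ) = D - 1 := by
      rw [Nat.cast_sub h0]; simp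
    simp only [F]
    rw [e2]
    apply le_of_eq
    field_simp
    ring

/-- The conclusion at time `t`. -/
def Succ (m R : ℕ) (w : ℕ → Slot) (t : ℕ) : Prop :=
  ∃ s0 s1 : ℕ, s0 ≤ s1 ∧ s1 ≤ t ∧ cur w s1 - cur w s0 = (R : ℤ) ∧
      ∀ u v, s0 ≤ u → u ≤ v → v ≤ s1 → cur w u - cur w v < (m : ℤ)

/-- The invariant. -/
def Inv (m R : ℕ) (w : ℕ → Slot) (s : ℕ) (e : ℕ × ℕ) : Prop :=
  (e.2 = R ∧ Succ m R w s) ∨
  (e.2 < R ∧ e.1 < m ∧ ∃ s0 ≤ s, cur w s = cur w s0 + e.2 - e.1 ∧
    (∀ v, s0 ≤ v → v ≤ s → cur w v ≤ cur w s0 + e.2) ∧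
    ∀ u v, s0 ≤ u → u ≤ v → v ≤ s → cur w u - cur w v < (m : ℤ))

lemma Succ.mono {w : ℕ → Slot} {s t : ℕ} (h : Succ m R w s) (hst : s ≤ t) : Succ m R w t := by
  obtain ⟨s0, s1, h1, h2, h3⟩ := h
  exact ⟨s0, s1, h1, h2.trans hst, h3⟩

/-- Extending the invariant part by one time step. -/
lemma extend {w : ℕ → Slot} {s s0 : ℕ} {H H' D' : ℕ} (hs0 : s0 ≤ s) (hHH : H ≤ H')
    (hD : D' < m) (hcur : cur w (s + 1) = cur w s0 + H' - D')
    (hmax : ∀ v, s0 ≤ v → v ≤ s → cur w v ≤ cur w s0 + H)
    (hdd : ∀ u v, s0 ≤ u → u ≤ v → v ≤ s → cur w u - cur w v < (m : ℤ)) :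
    (∀ v, s0 ≤ v → v ≤ s + 1 → cur w v ≤ cur w s0 + H') ∧
    ∀ u v, s0 ≤ u → u ≤ v → v ≤ s + 1 → cur w u - cur w v < (m : ℤ) := by
  have h1 : ∀ v, s0 ≤ v → v ≤ s + 1 → cur w v ≤ cur w s0 + H' := by
    intro v hv hv'
    rcases Nat.lt_or_ge s v with h | h
    · have : v = s + 1 := by omega
      rw [this, hcur]; omega
    · have := hmax v hv h
      omega
  refine ⟨h1, ?_⟩
  intro u v hu huv hv
  rcases Nat.lt_or_ge s v with h | h
  · have : v = s + 1 := by omega
    subst this
    have := h1 u hu huv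
    rw [hcur]; omega
  · exact hdd u v hu huv h

lemma inv_step (hm : 1 ≤ m) {w : ℕ → Slot} {s : ℕ} {e : ℕ × ℕ} (h : Inv m R w s e) :
    Inv m R w (s + 1) (st m R (w s) e) := by
  rcases h with ⟨hR, hS⟩ | ⟨hR, hD, s0, hs0, hcur, hmax, hdd⟩
  · left
    have : st m R (w s) e = e := by simp [st, hR]
    rw [this]
    exact ⟨hR, hS.mono (Nat.le_succ s)⟩
  · obtain ⟨D, H⟩ := e
    simp only at hR hD hcur hmax
    have hne : ¬ H = R := by omega
    have hc := cur_succ w s
    by_cases h0 : w s = (0, true)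
    · have hmv : mv (w s) = 1 := by simp [mv, h0]
      rw [hmv] at hc
      rcases Nat.eq_zero_or_pos D with hD0 | hD0
      · subst hD0
        have e1 : st m R (w s) (0, H) = (0, H + 1) := by simp [st, hne, h0]
        rw [e1]
        have hc' : cur w (s + 1) = cur w s0 + ((H + 1 : ℕ) : ℤ) - ((0 : ℕ) : ℤ) := by
          rw [hc, hcur]; push_cast; ring
        obtain ⟨h1, h2⟩ := extend (D' := 0) hs0 (Nat.le_succ H) hm hc' hmax hdd
        rcases Nat.lt_or_ge (H + 1) R with h3 | h3
        · right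
          exact ⟨h3, hm, s0, by omega, hc', h1, h2⟩
        · left
          have h4 : H + 1 = R := by omega
          refine ⟨h4, s0, s + 1, by omega, le_rfl, ?_, h2⟩
          rw [hc', ← h4]; push_cast; ring
      · have e1 : st m R (w s) (D, H) = (D - 1, H) := by
          have : D ≠ 0 := by omega
          simp [st, hne, h0, this]
        rw [e1]
        have hc' : cur w (s + 1) = cur w s0 + (H : ℤ) - ((D - 1 : ℕ) : ℤ) := by
          rw [hc, hcur, Nat.cast_sub hD0]; push_cast; ring
        obtain ⟨h1, h2⟩ := extend (D' := D - 1) (H' := H) hs0 le_rfl (by omega) hc' hmax hdd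
        right
        exact ⟨hR, by simp only; omega, s0, by omega, hc', h1, h2⟩
    · by_cases h1 : w s = (1, true)
      · have hmv : mv (w s) = -1 := by simp [mv, h1]
        rw [hmv] at hc
        by_cases h2 : D + 1 = m
        · have e1 : st m R (w s) (D, H) = (0, 0) := by simp [st, hne, h1, h2]
          rw [e1]
          right
          refine ⟨by simp only; omega, by simp only; omega, s + 1, le_rfl, by simp, ?_, ?_⟩
          · intro v hv hv'
            have : v = s + 1 := by omega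
            rw [this]; simp
          · intro u v hu huv hv
            have e1 : v = s + 1 := by omega
            have e2 : u = s + 1 := by omega
            rw [e1, e2]; omega
        · have e1 : st m R (w s) (D, H) = (D + 1, H) := by simp [st, hne, h1, h2]
          rw [e1]
          have hc' : cur w (s + 1) = cur w s0 + (H : ℤ) - ((D + 1 : ℕ) : ℤ) := by
            rw [hc, hcur]; push_cast; ring
          obtain ⟨h3, h4⟩ := extend (D' := D + 1) (H' := H) hs0 le_rfl (by omega) hc' hmax hdd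
          right
          exact ⟨hR, by simp only; omega, s0, by omega, hc', h3, h4⟩
      · have hmv : mv (w s) = 0 := by simp [mv, h0, h1]
        rw [hmv] at hc
        have e1 : st m R (w s) (D, H) = (D, H) := by simp [st, hne, h0, h1]
        rw [e1]
        have hc' : cur w (s + 1) = cur w s0 + (H : ℤ) - (D : ℤ) := by
          rw [hc, hcur]; ring
        obtain ⟨h3, h4⟩ := extend (D' := D) (H' := H) hs0 le_rfl hD hc' hmax hdd
        right
        exact ⟨hR, hD, s0, by omega, hc', h3, h4⟩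

lemma inv_run (hm : 1 ≤ m) (w : ℕ → Slot) (s : ℕ) :
    Inv m R w s (run (st m R) (0, 0) w s) := by
  induction s with
  | zero =>
    rcases Nat.eq_zero_or_pos R with hR | hR
    · left
      refine ⟨hR.symm, 0, 0, le_rfl, le_rfl, by simp [hR], ?_⟩
      intro u v _ huv hv
      have e1 : v = 0 := by omega
      have e2 : u = 0 := by omega
      rw [e1, e2]; omega
    · right
      refine ⟨hR, hm, 0, le_rfl, by simp [run], ?_, ?_⟩
      · intro v _ hv
        have : v = 0 := by omega
        rw [this]; simp [run]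
      · intro u v _ huv hv
        have e1 : v = 0 := by omega
        have e2 : u = 0 := by omega
        rw [e1, e2]; omega
  | succ s ih => exact inv_step hm ih

end B1

theorem run_success (m R : ℕ) (hm : 1 ≤ m) (t : ℕ) (ht : 0 < t) :
    Pr t (fun w => ¬ ∃ s0 s1 : ℕ, s0 ≤ s1 ∧ s1 ≤ t ∧ cur w s1 - cur w s0 = (R : ℤ) ∧
      ∀ u v, s0 ≤ u → u ≤ v → v ≤ s1 → cur w u - cur w v < (m : ℤ))
    ≤ 7 * m * (m + 1) * ((1 + 1 / (m : ℝ)) ^ R - 1) / t := by
  have h1 := Pr_not_absorbed (B1.st m R) (0, 0) (fun e => e.1 < m ∧ e.2 ≤ R)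
    ⟨hm, Nat.zero_le R⟩ (by
      rintro a ⟨D, H⟩ ⟨h1, h2⟩
      simp only at h1 h2
      unfold B1.st
      simp only
      split_ifs <;> simp only <;> omega) (fun e => e.2 = R) (by
      rintro a ⟨D, H⟩ _ h2
      simp only at h2
      simp [B1.st, h2]) (B1.F m R) (by
      rintro ⟨D, H⟩ ⟨h1, h2⟩
      simp only at h1 h2
      unfold B1.F
      have hm' : (0 : ℝ) < m := by exact_mod_cast hm
      have h3 : (D : ℝ) ≤ m := by exact_mod_cast h1.le
      have h4 : (D : ℝ) / m ≤ 1 := (div_le_one hm').mpr h3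
      have h5 : (0 : ℝ) ≤ 1 - D / m := by linarith
      have h6 : (0 : ℝ) ≤ (m : ℝ) - D := by linarith
      have h7 := B1.V_nonneg (m := m) h2
      have h8 := B1.V_nonneg (m := m) (Nat.zero_le R)
      simp only
      positivity) (fun e he hA => B1.F_drop hm e he hA) t ht
  have h2 : B1.F m R (0, 0) = 7 * m * (m + 1) * ((1 + 1 / (m : ℝ)) ^ R - 1) := by
    simp [B1.F, B1.V]
  rw [h2] at h1
  refine le_trans (Pr_mono ?_) h1
  intro w hw hR
  apply hw
  rcases B1.inv_run (R := R) hm w t with ⟨_, h⟩ | ⟨h, _⟩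
  · exact h
  · exact absurd hR (by omega)

end Pool.Agent.Helper55.PC
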